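import Pool.Agent.Work.MP_453786_co.Geom

/-!
# MP_453786_co, Q1: four non-overlapping unit balls never admit both `ABCD` and `ACDB`

The proof works in every dimension.  Write `D_XY = |XY|^2 - 4` and
`F = D_AD - D_BC + (D_AC - D_BD) / 10`.  A line meeting the balls in the order `A, C, D, B` forces
`F ≤ κ D_AB + β` for the five pairs `(κ, β)` = `(8, 0)`, `(3.5, 0.43)`, `(2.2, 1.34)`,
`(1.5, 2.54)`, `(1.1, 3.72)`; a line meeting them in the order `A, B, C, D` forces
`F > κ D_AB + β` for one of these pairs.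
-/

namespace Pool.Agent.Results.MP_453786_co.NoTwoPermutations

open Metric

/-- The ambient space `ℝ^d`. -/
abbrev Sp (d : ℕ) : Type := EuclideanSpace ℝ (Fin d)

/-- The set `I_X` of the parameters `t` for which `p + t v` lies in the closed unit ball with
centre `X`. -/
def paramSet {d : ℕ} (p v X : Sp d) : Set ℝ := {t | p + t • v ∈ closedBall X 1}

/-- The listing `X 0, X 1, X 2, X 3` satisfies `max I_{X k} ≤ min I_{X (k + 1)}` for
`k = 0, 1, 2`. -/
def IsListing {d : ℕ} (p v : Sp d) (X : Fin 4 → Sp d) : Prop :=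
  ∀ k : Fin 3, ∀ s ∈ paramSet p v (X k.castSucc), ∀ t ∈ paramSet p v (X k.succ), s ≤ t

/-- The line `t ↦ p + t v` (with `v ≠ 0`) is a line transversal of the four closed unit balls with
centres `X 0, …, X 3` and meets them in the order `X 0, X 1, X 2, X 3`: this listing has the
property `IsListing`, and it is the only one up to reversal. -/
structure MeetsInOrder {d : ℕ} (p v : Sp d) (X : Fin 4 → Sp d) : Prop where
  direction : v ≠ 0
  meets : ∀ i, (paramSet p v (X i)).Nonempty
  listing : IsListing p v X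
  unique : ∀ σ : Equiv.Perm (Fin 4), IsListing p v (X ∘ σ) → σ = 1 ∨ σ = Fin.revPerm

/-- The four closed unit balls with centres `X 0, …, X 3` admit the geometric permutation
`X 0, X 1, X 2, X 3`: some line transversal meets them in this order or in the reverse order. -/
def Admits {d : ℕ} (X : Fin 4 → Sp d) : Prop :=
  ∃ p v : Sp d, MeetsInOrder p v X ∨ MeetsInOrder p v (X ∘ Fin.rev)

/-- The closed unit balls with centres `X 0, …, X 3` have pairwise disjoint interiors. -/
def NonOverlapping {d : ℕ} (X : Fin 4 → Sp d) : Prop :=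
  ∀ i j, i ≠ j → Disjoint (interior (closedBall (X i) 1)) (interior (closedBall (X j) 1))

theorem strict_fwd {d : ℕ} {p v : Sp d} {X : Fin 4 → Sp d} (M : MeetsInOrder p v X) :
    ¬ ∀ s ∈ paramSet p v (X 0), ∀ t ∈ paramSet p v (X 1), s = t := by
  intro H
  have O : IsListing p v (X ∘ (Equiv.swap 0 1 : Equiv.Perm (Fin 4))) := by
    intro k
    fin_cases k
    · intro s hs t ht
      have hs' : s ∈ paramSet p v (X 1) := hs
      have ht' : t ∈ paramSet p v (X 0) := ht
      exact (H t ht' s hs').ge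
    · intro s hs t ht
      have hs' : s ∈ paramSet p v (X 0) := hs
      have ht' : t ∈ paramSet p v (X 2) := ht
      obtain ⟨u, hu⟩ := M.meets 1
      rw [H s hs' u hu]
      exact M.listing 1 u hu t ht'
    · intro s hs t ht
      have hs' : s ∈ paramSet p v (X 2) := hs
      have ht' : t ∈ paramSet p v (X 3) := ht
      exact M.listing 2 s hs' t ht'
  rcases M.unique _ O with h | h
  · exact absurd h (by decide)
  · exact absurd h (by decide)

theorem strict_bwd {d : ℕ} {p v : Sp d} {Y : Fin 4 → Sp d} (M : MeetsInOrder p v Y) :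
    ¬ ∀ s ∈ paramSet p v (Y 3), ∀ t ∈ paramSet p v (Y 2), s = t := by
  intro H
  have O : IsListing p v (Y ∘ (Equiv.swap 2 3 : Equiv.Perm (Fin 4))) := by
    intro k
    fin_cases k
    · intro s hs t ht
      have hs' : s ∈ paramSet p v (Y 0) := hs
      have ht' : t ∈ paramSet p v (Y 1) := ht
      exact M.listing 0 s hs' t ht'
    · intro s hs t ht
      have hs' : s ∈ paramSet p v (Y 1) := hs
      have ht' : t ∈ paramSet p v (Y 3) := ht
      obtain ⟨u, hu⟩ := M.meets 2
      rw [H t ht' u hu]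
      exact M.listing 1 s hs' u hu
    · intro s hs t ht
      have hs' : s ∈ paramSet p v (Y 3) := hs
      have ht' : t ∈ paramSet p v (Y 2) := ht
      exact (H s hs' t ht').le
  rcases M.unique _ O with h | h
  · exact absurd h (by decide)
  · exact absurd h (by decide)

theorem mem_neg {d : ℕ} {p v X : Sp d} {t : ℝ} :
    t ∈ paramSet p (-v) X ↔ -t ∈ paramSet p v X := by
  simp [paramSet]

/-- A line meeting the balls in a given order, up to reversal, may be oriented so that it meets
them in exactly this order. -/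
theorem orient {d : ℕ} {X : Fin 4 → Sp d} (h : Admits X) :
    ∃ p v : Sp d, v ≠ 0 ∧ (∀ i, (paramSet p v (X i)).Nonempty) ∧
      (∀ s ∈ paramSet p v (X 0), ∀ t ∈ paramSet p v (X 1), s ≤ t) ∧
      (∀ s ∈ paramSet p v (X 1), ∀ t ∈ paramSet p v (X 2), s ≤ t) ∧
      (∀ s ∈ paramSet p v (X 2), ∀ t ∈ paramSet p v (X 3), s ≤ t) ∧
      ¬ ∀ s ∈ paramSet p v (X 0), ∀ t ∈ paramSet p v (X 1), s = t := by
  obtain ⟨p, v, M | M⟩ := h
  · exact ⟨p, v, M.direction, M.meets, M.listing 0, M.listing 1, M.listing 2, strict_fwd M⟩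
  · refine ⟨p, -v, neg_ne_zero.2 M.direction, ?_, ?_, ?_, ?_, ?_⟩
    · intro i
      obtain ⟨t, ht⟩ := M.meets (Fin.rev i)
      refine ⟨-t, ?_⟩
      rw [mem_neg, neg_neg]
      have : (X ∘ Fin.rev) (Fin.rev i) = X i := by simp
      rw [this] at ht
      exact ht
    · intro s hs t ht
      rw [mem_neg] at hs ht
      have := M.listing 2 (-t) ht (-s) hs
      linarith
    · intro s hs t ht
      rw [mem_neg] at hs ht
      have := M.listing 1 (-t) ht (-s) hs
      linarith
    · intro s hs t ht
      rw [mem_neg] at hs ht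
      have := M.listing 0 (-t) ht (-s) hs
      linarith
    · intro H
      refine strict_bwd M ?_
      intro s hs t ht
      have hs' : -s ∈ paramSet p (-v) (X 0) := by rw [mem_neg, neg_neg]; exact hs
      have ht' : -t ∈ paramSet p (-v) (X 1) := by rw [mem_neg, neg_neg]; exact ht
      have := H (-s) hs' (-t) ht'
      linarith

/-- **Main theorem.** In every dimension `d` (in particular for `d = 3`), no family of four
non-overlapping unit balls `A, B, C, D` admits both of the geometric permutations `ABCD` and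
`ACDB`. -/
theorem result : ∀ (d : ℕ) (A B C D : Sp d), NonOverlapping ![A, B, C, D] →
    ¬ (Admits ![A, B, C, D] ∧ Admits ![A, C, D, B]) := by
  rintro d A B C D hN ⟨h1, h2⟩
  have dAB : 2 ≤ ‖A - B‖ := MP453786.two_le_of_disjoint (hN 0 1 (by decide))
  have dAC : 2 ≤ ‖A - C‖ := MP453786.two_le_of_disjoint (hN 0 2 (by decide))
  have dAD : 2 ≤ ‖A - D‖ := MP453786.two_le_of_disjoint (hN 0 3 (by decide))
  have dBC : 2 ≤ ‖B - C‖ := MP453786.two_le_of_disjoint (hN 1 2 (by decide))
  have dBD : 2 ≤ ‖B - D‖ := MP453786.two_le_of_disjoint (hN 1 3 (by decide))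
  have dCD : 2 ≤ ‖C - D‖ := MP453786.two_le_of_disjoint (hN 2 3 (by decide))
  have dCB : 2 ≤ ‖C - B‖ := by rw [norm_sub_rev]; exact dBC
  have dDB : 2 ≤ ‖D - B‖ := by rw [norm_sub_rev]; exact dBD
  -- the line with order `A, B, C, D`
  obtain ⟨p, v, hv, ne, o1, o2, o3, st⟩ := orient h1
  obtain ⟨a00, a01, a02, a03, a11, a12, a13, a22, a23, a33, x, y, z, hx, hy, hz, K, k1, k2, k3,
    kx, kv⟩ := MP453786.conf_of_ordered (X0 := A) (X1 := B) (X2 := C) (X3 := D) hv
      (ne 0) (ne 1) (ne 2) (ne 3) o1 o2 o3 dAB dAC dAD dBC dBD dCD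
  have hx' : 0 < x := by
    rcases eq_or_lt_of_le hx with h | h
    · exact absurd (kx h.symm) st
    · exact h
  have U := MP453786.boundI hx' hy hz K k1 k2 (abs_le.1 k3).1
  simp only [kv] at U
  -- the line with order `A, C, D, B`
  obtain ⟨p', v', hv', ne', o1', o2', o3', st'⟩ := orient h2
  obtain ⟨b00, b01, b02, b03, b11, b12, b13, b22, b23, b33, x', y', z', gx, gy, gz, K', l1, l2,
    l3, lx, lv⟩ := MP453786.conf_of_ordered (X0 := A) (X1 := C) (X2 := D) (X3 := B) hv'
      (ne' 0) (ne' 1) (ne' 2) (ne' 3) o1' o2' o3' dAC dAD dAB dCD dCB dDB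
  have V1 := MP453786.boundII_8 gx gy gz K' l1 l2 (abs_le.1 l3).2
  have V2 := MP453786.boundII_of_tree MP453786.chk35 (by norm_num) gx gy gz K'
  have V3 := MP453786.boundII_of_tree MP453786.chk22 (by norm_num) gx gy gz K'
  have V4 := MP453786.boundII_of_tree MP453786.chk15 (by norm_num) gx gy gz K'
  have V5 := MP453786.boundII_of_tree MP453786.chk11 (by norm_num) gx gy gz K'
  rw [lv] at V1 V2 V3 V4 V5
  push_cast at V2 V3 V4 V5
  rw [norm_sub_rev C B, norm_sub_rev D B] at V1 V2 V3 V4 V5
  rcases U with U | U | U | U | U <;> linarith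

end Pool.Agent.Results.MP_453786_co.NoTwoPermutations
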